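import Mathlib
import Pool.Agent.Lib_helper46.KDefs
import Pool.Agent.Lib_helper46.KExist
import Pool.Agent.Lib_helper93.KC.Defs
import Pool.Agent.Lib_helper93.KC.Final

set_option autoImplicit false

/-!
# MP_018646_lc, Q1: every measure satisfying (B1) also satisfies (A1)

For a Borel probability measure `μ` on Cantor space, if the `μ`-average plain complexity of the
strings of length `n` is `≥ n - O(1)` for infinitely many `n`, then the `μ`-average prefix-free
complexity of the strings of length `n` is `≥ n + K(n) - O(1)` for infinitely many `n`.

Proof idea. For `x` of length `T` let `m(x)` be the sum of `2^(|y|-|p|)` over the pairs `(p, y)`,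
`y` a prefix of `x`, enumerated into the graph of the universal prefix-free machine before stage
`T`; its average over the strings of length `T` is at most `1`. For every `s` and every infinite
sequence `X` run a queue with arrivals `16^(-s) (m(X↾(T+1)) - m(X↾T))` at time `T` and service
`a_T = 2^(-k_T)`, where `k_T` is common to all `s` and `X`: it is the largest `k ≤ 2T+2` such that
`∑_{s ≤ T} 4^s λ{X : backlog + arrivals > 2^(-k)} ≤ 2`. Telescoping the expected backlogs gives
`∑ a_T ≤ 2`, so `a_T ≤ O(1) 2^(-K(T+1))` since `a_T` is computable. The computable set of the
strings of length `n` with a positive backlog in queue `s` has at most `2^(n-2s+1)` elements, so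
its elements have plain complexity `≤ n - s + O(1)`; and a string of length `T` outside it
satisfies `m(X↾T) - m(X↾N) ≤ 16^s ∑_{N ≤ t < T} a_t` for all `N < T`. Hence a bound on the average
of `T - C(X↾T)`, for infinitely many `T`, gives for every `N` a bound for the average over `n > N`
(with weights proportional to `2^(-K(n))`) of the `μ`-average of `n + K(n) - K(X↾n)`.
-/

namespace Pool.Agent.Results.MP_018646_lc.B1ImpliesA1

open MeasureTheory Pool.Agent.Lib_helper46.Measures Pool.Agent.Lib_helper93.KC

/-- Sanity check: universal plain machines and universal prefix-free machines, in the sense of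
the definitions used below, exist. -/
theorem universal_machines_exist :
    (∃ U : List Bool →. List Bool, IsUniversalPlain U) ∧
      (∃ V : List Bool →. List Bool, IsUniversalPrefixFree V) :=
  ⟨exists_universalPlain, exists_universalPrefixFree⟩

/-- **Answer to Q1 of MP_018646_lc (in the negated form).**
Let `U` be a universal plain machine and `V` a universal prefix-free machine.
Every Borel probability measure on Cantor space satisfying (B1) also satisfies (A1). -/
theorem result (U V : List Bool →. List Bool) (hU : IsUniversalPlain U)
    (hV : IsUniversalPrefixFree V) (μ : Measure (ℕ → Bool)) [IsProbabilityMeasure μ]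
    (h : B1 U μ) : A1 V μ :=
  b1_implies_a1 U V hU hV μ h

end Pool.Agent.Results.MP_018646_lc.B1ImpliesA1
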