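import Mathlib
import Pool.Agent.Lib_helper46.KDefs
import Pool.Agent.Lib_helper46.KMain
import Pool.Agent.Lib_helper46.KExist

set_option autoImplicit false

/-!
# MP_018646_lc, Q2: every measure satisfying (B2) also satisfies (A2)

For a Borel probability measure `μ` on Cantor space, if the `μ`-average plain complexity of the
strings of length `n` is `≥ n - O(1)` for all `n`, then the `μ`-average prefix-free complexity of
the strings of length `n` is `≥ n + K(n) - O(1)` for all `n`.

Proof idea. Given `n`, let `m ≥ n` be the number coding the pair `(n, K(n))`. If `|x| = n` and
`K(x) ≤ n + K(n) - 2k`, then `x` is one of at most `2^(n-2k+O(1))` strings that can be enumerated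
from `n` and `K(n)` (coding theorem), so an extension `xz` of length `m` has a plain description
`1^k 0 u z` of length `m - k + O(1)`, where `u` is the index of `x` (`m`, hence `n` and `K(n)`, can
be read off from the length of the description). Hence
`m - C(xz) ≥ (n + K(n) - K(x)) / 2 - O(1)`; now average over `μ`.
-/

namespace Pool.Agent.Results.MP_018646_lc.B2ImpliesA2

open MeasureTheory Pool.Agent.Lib_helper46.Measures

/-- Sanity check: universal plain machines and universal prefix-free machines, in the sense of
the definitions used below, exist. -/
theorem universal_machines_exist :
    (∃ U : List Bool →. List Bool, IsUniversalPlain U) ∧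
      (∃ V : List Bool →. List Bool, IsUniversalPrefixFree V) :=
  ⟨exists_universalPlain, exists_universalPrefixFree⟩

/-- **Answer to Q2 of MP_018646_lc (in the negated form).**
Let `U` be a universal plain machine and `V` a universal prefix-free machine.
Every Borel probability measure on Cantor space satisfying (B2) also satisfies (A2). -/
theorem result (U V : List Bool →. List Bool) (hU : IsUniversalPlain U)
    (hV : IsUniversalPrefixFree V) (μ : Measure (ℕ → Bool)) [IsProbabilityMeasure μ]
    (h : B2 U μ) : A2 V μ :=
  b2_implies_a2 U V hU hV μ h

end Pool.Agent.Results.MP_018646_lc.B2ImpliesA2
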